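import Pool.Agent.H81.WN.Erg

/-!
Correlations of a vector with continuous spectrum: the finite spectral measure of length `M`
(white noise theorem, MP_c59857_nt).
-/

set_option autoImplicit false

open Finset

namespace Pool.Agent.H81.WN

open Pool.Agent.H6.N4D (ee norm_ee ee_add ee_int)

/-- the geometric sum over a full period, for the shifts which are not multiples of `M` -/
theorem orth2 (M : ℕ) (k : ℤ) (h0 : k ≠ 0) (h1 : k ≠ M) (h2 : -(M : ℤ) < k)
    (h3 : k < 2 * M) : ∑ ξ ∈ range M, ee ((k : ℝ) * ξ / M) = 0 := by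
  by_cases h : k < M
  · exact Pool.Agent.H56.QP.orth M k h0 (abs_lt.2 ⟨h2, h⟩)
  · push Not at h
    have h4 : (M : ℤ) < k := lt_of_le_of_ne h (Ne.symm h1)
    have hM : (0 : ℤ) < M := by omega
    have hMr : (M : ℝ) ≠ 0 := by
      have : (0 : ℝ) < M := by exact_mod_cast hM
      exact this.ne'
    have h5 := Pool.Agent.H56.QP.orth M (k - M) (by omega) (abs_lt.2 ⟨by omega, by omega⟩)
    rw [← h5]
    apply sum_congr rfl
    intro ξ _
    have : (k : ℝ) * ξ / M = (((k - M : ℤ) : ℝ)) * ξ / M + ((ξ : ℤ) : ℝ) := by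
      push_cast
      field_simp
      ring
    rw [this, ee_add, ee_int, mul_one]

theorem orth_M (M : ℕ) (hM : 1 ≤ M) (k : ℤ) (hk : k = 0 ∨ k = M) :
    ∑ ξ ∈ range M, ee ((k : ℝ) * ξ / M) = M := by
  have hMr : (M : ℝ) ≠ 0 := by
    have : (0 : ℝ) < M := by exact_mod_cast hM
    exact this.ne'
  have : ∀ ξ ∈ range M, ee ((k : ℝ) * ξ / M) = 1 := by
    intro ξ _
    rcases hk with h | h
    · rw [h]
      simpa using ee_int 0
    · rw [h, show (((M : ℤ) : ℝ)) * ξ / M = ((ξ : ℤ) : ℝ) by push_cast; field_simp, ee_int]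
  rw [sum_congr rfl this]
  simp

section

variable {E : Type} [NormedAddCommGroup E] [InnerProductSpace ℂ E]

/-- the weights of the finite spectral measure -/
noncomputable def wt (U : E →L[ℂ] E) (u : E) (M ξ : ℕ) : ℝ := (‖SS U u M (ξ / M)‖ / M) ^ 2

theorem wt_nonneg (U : E →L[ℂ] E) (u : E) (M ξ : ℕ) : 0 ≤ wt U u M ξ := sq_nonneg _

/-- the finite spectral measure at `a` -/
noncomputable def WW (U : E →L[ℂ] E) (u : E) (M a : ℕ) : ℂ :=
  ∑ ξ ∈ range M, (wt U u M ξ : ℂ) * ee ((a : ℝ) * ξ / M)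

/-- the shift modulo `M` -/
def TT (M a s : ℕ) : ℕ := if s + a < M then s + a else s + a - M

theorem ker_eq (M a s t : ℕ) (ha : a ≤ M) (hs : s < M) (ht : t < M) :
    ∑ ξ ∈ range M, ee (((((s : ℤ) - t + a : ℤ)) : ℝ) * ξ / M) =
      if t = TT M a s then (M : ℂ) else 0 := by
  unfold TT
  by_cases h : s + a < M
  · rw [if_pos h]
    by_cases h1 : t = s + a
    · rw [if_pos h1]
      exact orth_M M (by omega) _ (Or.inl (by omega))
    · rw [if_neg h1]
      exact orth2 M _ (by omega) (by omega) (by omega) (by omega)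
  · rw [if_neg h]
    by_cases h1 : t = s + a - M
    · rw [if_pos h1]
      exact orth_M M (by omega) _ (Or.inr (by omega))
    · rw [if_neg h1]
      exact orth2 M _ (by omega) (by omega) (by omega) (by omega)

theorem TT_lt (M a s : ℕ) (ha : a ≤ M) (hs : s < M) : TT M a s < M := by
  unfold TT
  split_ifs <;> omega

theorem norm_sq_SS (U : E →L[ℂ] E) (u : E) (M : ℕ) (θ : ℝ) :
    ((‖SS U u M θ‖ ^ 2 : ℝ) : ℂ) = ∑ s ∈ range M, ∑ t ∈ range M,
      ee (s * θ - t * θ) * inner ℂ ((U ^ s) u) ((U ^ t) u) := by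
  have h1 : ((‖SS U u M θ‖ ^ 2 : ℝ) : ℂ) = inner ℂ (SS U u M θ) (SS U u M θ) := by
    rw [inner_self_eq_norm_sq_to_K]
    push_cast
    rfl
  rw [h1]
  unfold SS
  rw [sum_inner]
  apply sum_congr rfl
  intro s _
  rw [inner_sum]
  apply sum_congr rfl
  intro t _
  rw [inner_smul_left, inner_smul_right, Pool.Agent.H6.GS2.conj_ee, neg_neg, ← mul_assoc,
    ← ee_add]
  congr 2

theorem WW_eq (U : E →L[ℂ] E) (u : E) (M a : ℕ) (hM : 1 ≤ M) (ha : a ≤ M) :
    (M : ℂ) * WW U u M a = ∑ s ∈ range M, inner ℂ ((U ^ s) u) ((U ^ (TT M a s)) u) := by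
  have hMr : (M : ℝ) ≠ 0 := by
    have : (0 : ℝ) < M := by exact_mod_cast hM
    exact this.ne'
  have hMc : (M : ℂ) ≠ 0 := by exact_mod_cast hMr
  have h1 : ∀ ξ ∈ range M, (wt U u M ξ : ℂ) * ee ((a : ℝ) * ξ / M) =
      ((M : ℂ) ^ 2)⁻¹ * ∑ s ∈ range M, ∑ t ∈ range M,
      inner ℂ ((U ^ s) u) ((U ^ t) u) * ee (((((s : ℤ) - t + a : ℤ)) : ℝ) * ξ / M) := by
    intro ξ _
    have h2 : (wt U u M ξ : ℂ) = ((M : ℂ) ^ 2)⁻¹ * ((‖SS U u M (ξ / M)‖ ^ 2 : ℝ) : ℂ) := by
      unfold wt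
      push_cast
      field_simp
    rw [h2, norm_sq_SS, mul_assoc, sum_mul]
    congr 1
    apply sum_congr rfl
    intro s _
    rw [sum_mul]
    apply sum_congr rfl
    intro t _
    rw [mul_comm (ee _) (inner ℂ _ _), mul_assoc, ← ee_add]
    congr 2
    push_cast
    ring
  unfold WW
  rw [sum_congr rfl h1, ← mul_sum, sum_comm]
  have h3 : ∀ s ∈ range M, ∑ ξ ∈ range M, ∑ t ∈ range M,
      inner ℂ ((U ^ s) u) ((U ^ t) u) * ee (((((s : ℤ) - t + a : ℤ)) : ℝ) * ξ / M) =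
      M * inner ℂ ((U ^ s) u) ((U ^ (TT M a s)) u) := by
    intro s hs
    rw [sum_comm]
    have h4 : ∀ t ∈ range M, ∑ ξ ∈ range M,
        inner ℂ ((U ^ s) u) ((U ^ t) u) * ee (((((s : ℤ) - t + a : ℤ)) : ℝ) * ξ / M) =
        if t = TT M a s then M * inner ℂ ((U ^ s) u) ((U ^ (TT M a s)) u) else 0 := by
      intro t ht
      rw [← mul_sum, ker_eq M a s t ha (mem_range.1 hs) (mem_range.1 ht)]
      split_ifs with h5
      · rw [h5]
        ring
      · rw [mul_zero]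
    rw [sum_congr rfl h4, sum_ite_eq' (range M) (TT M a s),
      if_pos (mem_range.2 (TT_lt M a s ha (mem_range.1 hs)))]
  rw [sum_congr rfl h3, ← mul_sum]
  field_simp

/-- the finite spectral measure gives the correlations up to the wrap around -/
theorem WW_near (U : E →L[ℂ] E) (hU : ∀ v, ‖U v‖ = ‖v‖) (u : E) (M a : ℕ) (hM : 1 ≤ M)
    (ha : a ≤ M) : ‖WW U u M a - inner ℂ u ((U ^ a) u)‖ ≤ 2 * a * ‖u‖ ^ 2 / M := by
  have hMr : (0 : ℝ) < M := by exact_mod_cast hM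
  have hMc : (M : ℂ) ≠ 0 := by exact_mod_cast hMr.ne'
  have h1 : (M : ℂ) * (WW U u M a - inner ℂ u ((U ^ a) u)) = ∑ s ∈ range M,
      (inner ℂ ((U ^ s) u) ((U ^ (TT M a s)) u) - inner ℂ u ((U ^ a) u)) := by
    rw [mul_sub, WW_eq U u M a hM ha, sum_sub_distrib, sum_const, card_range, nsmul_eq_mul]
  have h2 : ∀ s ∈ range M, ‖(inner ℂ ((U ^ s) u) ((U ^ (TT M a s)) u) -
      inner ℂ u ((U ^ a) u) : ℂ)‖ ≤ if M - a ≤ s then 2 * ‖u‖ ^ 2 else 0 := by
    intro s hs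
    have hs' := mem_range.1 hs
    split_ifs with h
    · have b1 : ‖(inner ℂ ((U ^ s) u) ((U ^ (TT M a s)) u) : ℂ)‖ ≤ ‖u‖ ^ 2 := by
        refine (norm_inner_le_norm _ _).trans ?_
        rw [norm_pow_apply U hU, norm_pow_apply U hU]
        exact le_of_eq (by ring)
      have b2 : ‖(inner ℂ u ((U ^ a) u) : ℂ)‖ ≤ ‖u‖ ^ 2 := by
        refine (norm_inner_le_norm _ _).trans ?_
        rw [norm_pow_apply U hU]
        exact le_of_eq (by ring)
      have := norm_sub_le (inner ℂ ((U ^ s) u) ((U ^ (TT M a s)) u) : ℂ)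
        (inner ℂ u ((U ^ a) u))
      linarith
    · have h3 : TT M a s = s + a := by
        unfold TT
        rw [if_pos (by omega)]
      rw [h3, pow_add_apply, inner_pow U hU, sub_self, norm_zero]
  have h3 : ‖(M : ℂ) * (WW U u M a - inner ℂ u ((U ^ a) u))‖ ≤ a * (2 * ‖u‖ ^ 2) := by
    rw [h1]
    refine (norm_sum_le _ _).trans ((sum_le_sum h2).trans ?_)
    rw [← sum_filter, sum_const, nsmul_eq_mul]
    apply mul_le_mul_of_nonneg_right _ (by positivity)
    have h4 : (range M).filter (fun s => M - a ≤ s) ⊆ Ico (M - a) M := by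
      intro s hs
      rw [mem_filter, mem_range] at hs
      exact mem_Ico.2 ⟨hs.2, hs.1⟩
    have h5 := card_le_card h4
    rw [Nat.card_Ico] at h5
    have h6 : ((range M).filter (fun s => M - a ≤ s)).card ≤ a := by omega
    exact_mod_cast h6
  rw [norm_mul, Complex.norm_natCast] at h3
  rw [le_div_iff₀ hMr]
  linarith

/-- the total mass -/
theorem wt_sum (U : E →L[ℂ] E) (hU : ∀ v, ‖U v‖ = ‖v‖) (u : E) (M : ℕ) (hM : 1 ≤ M) :
    ∑ ξ ∈ range M, wt U u M ξ = ‖u‖ ^ 2 := by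
  have h1 := WW_near U hU u M 0 hM (Nat.zero_le _)
  have h2 : WW U u M 0 = inner ℂ u ((U ^ 0) u) := by
    have : ‖WW U u M 0 - inner ℂ u ((U ^ 0) u)‖ ≤ 0 := by
      refine h1.trans (le_of_eq ?_)
      push_cast
      ring
    exact sub_eq_zero.1 (norm_le_zero_iff.1 this)
  have h3 : WW U u M 0 = ((∑ ξ ∈ range M, wt U u M ξ : ℝ) : ℂ) := by
    unfold WW
    push_cast
    apply sum_congr rfl
    intro ξ _
    rw [zero_mul, zero_div]
    have : ee 0 = 1 := by simpa using ee_int 0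
    rw [this, mul_one]
  have h4 : (inner ℂ u ((U ^ 0) u) : ℂ) = ((‖u‖ ^ 2 : ℝ) : ℂ) := by
    rw [pow_zero, ContinuousLinearMap.one_apply, inner_self_eq_norm_sq_to_K]
    push_cast
    rfl
  rw [h3, h4] at h2
  exact_mod_cast h2

end

end Pool.Agent.H81.WN
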