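import Mathlib.Analysis.InnerProductSpace.MeanErgodic
import Mathlib.Topology.UniformSpace.Dini
import Pool.Agent.H6.GS2.Bas
import Pool.Agent.H56.QP.FMC
import Pool.Agent.H93.DE.PIL

/-!
Continuous spectrum: the uniform mean ergodic theorem over all rotations, and the decay of the
correlations along the primes of an octave (white noise theorem, MP_c59857_nt).
-/

set_option autoImplicit false

open Finset Filter Topology

namespace Pool.Agent.H81.WN

open Pool.Agent.H6.N4D (ee norm_ee ee_add ee_int)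

section

variable {E : Type} [NormedAddCommGroup E] [InnerProductSpace ℂ E]

/-- the vector `u` is orthogonal to the eigenvectors of `U` -/
def Cont (U : E →L[ℂ] E) (u : E) : Prop :=
  ∀ (θ : ℝ) (v : E), U v = ee θ • v → inner ℂ v u = 0

theorem cont_of (U : E →L[ℂ] E) (u : E)
    (h : ∀ (z : ℂ) (w : E), ‖z‖ = 1 → U w = z • w → inner ℂ w u = 0) : Cont U u :=
  fun θ v hv => h (ee θ) v (norm_ee θ) hv

theorem norm_pow_apply (U : E →L[ℂ] E) (hU : ∀ v, ‖U v‖ = ‖v‖) (s : ℕ) (v : E) :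
    ‖(U ^ s) v‖ = ‖v‖ := by
  induction s with
  | zero => simp
  | succ n ih =>
    rw [pow_succ', ContinuousLinearMap.mul_apply, hU, ih]

theorem inner_map (U : E →L[ℂ] E) (hU : ∀ v, ‖U v‖ = ‖v‖) (v w : E) :
    inner ℂ (U v) (U w) = inner ℂ v w :=
  LinearIsometry.inner_map_map (⟨U.toLinearMap, hU⟩ : E →ₗᵢ[ℂ] E) v w

theorem inner_pow (U : E →L[ℂ] E) (hU : ∀ v, ‖U v‖ = ‖v‖) (s : ℕ) (v w : E) :
    inner ℂ ((U ^ s) v) ((U ^ s) w) = inner ℂ v w := by
  induction s with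
  | zero => simp
  | succ n ih =>
    rw [pow_succ', ContinuousLinearMap.mul_apply, ContinuousLinearMap.mul_apply,
      inner_map U hU, ih]

theorem pow_add_apply (U : E →L[ℂ] E) (s t : ℕ) (v : E) :
    (U ^ (s + t)) v = (U ^ s) ((U ^ t) v) := by
  rw [pow_add, ContinuousLinearMap.mul_apply]

/-- the exponential sum of the orbit -/
noncomputable def SS (U : E →L[ℂ] E) (u : E) (n : ℕ) (θ : ℝ) : E :=
  ∑ s ∈ range n, ee (-(s * θ)) • (U ^ s) u

theorem SS_add (U : E →L[ℂ] E) (u : E) (n m : ℕ) (θ : ℝ) :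
    SS U u (n + m) θ = SS U u n θ + ee (-(n * θ)) • (U ^ n) (SS U u m θ) := by
  unfold SS
  rw [sum_range_add, map_sum, smul_sum]
  congr 1
  apply sum_congr rfl
  intro s _
  rw [map_smul, smul_smul, ← ee_add, ← pow_add_apply]
  congr 2
  push_cast
  ring

theorem norm_SS_two (U : E →L[ℂ] E) (hU : ∀ v, ‖U v‖ = ‖v‖) (u : E) (n : ℕ) (θ : ℝ) :
    ‖SS U u (n + n) θ‖ ≤ 2 * ‖SS U u n θ‖ := by
  rw [SS_add]
  refine (norm_add_le _ _).trans ?_
  rw [norm_smul, norm_ee, one_mul, norm_pow_apply U hU]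
  linarith

theorem anti_SS (U : E →L[ℂ] E) (hU : ∀ v, ‖U v‖ = ‖v‖) (u : E) (θ : ℝ) :
    Antitone (fun j : ℕ => ‖SS U u (2 ^ j) θ‖ / (2 : ℝ) ^ j) := by
  apply antitone_nat_of_succ_le
  intro j
  rw [pow_succ, mul_two, pow_succ, div_le_div_iff₀ (by positivity) (by positivity)]
  have := norm_SS_two U hU u (2 ^ j) θ
  have h2 : (0 : ℝ) < 2 ^ j := by positivity
  calc ‖SS U u (2 ^ j + 2 ^ j) θ‖ * 2 ^ j ≤ (2 * ‖SS U u (2 ^ j) θ‖) * 2 ^ j :=
        mul_le_mul_of_nonneg_right this h2.le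
    _ = ‖SS U u (2 ^ j) θ‖ * (2 ^ j * 2) := by ring

theorem continuous_ee : Continuous ee := by
  unfold ee
  fun_prop

theorem cont_SS (U : E →L[ℂ] E) (u : E) (n : ℕ) : Continuous (fun θ => SS U u n θ) := by
  unfold SS
  apply continuous_finset_sum
  intro s _
  apply Continuous.smul
  · exact continuous_ee.comp (by fun_prop)
  · exact continuous_const

theorem per_SS (U : E →L[ℂ] E) (u : E) (n : ℕ) (θ : ℝ) (k : ℤ) :
    SS U u n (θ + k) = SS U u n θ := by
  unfold SS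
  apply sum_congr rfl
  intro s _
  congr 1
  rw [show -((s : ℝ) * (θ + k)) = -(s * θ) + ((-(s * k) : ℤ) : ℝ) by push_cast; ring, ee_add,
    ee_int, mul_one]

variable [CompleteSpace E]

/-- the mean ergodic theorem at one frequency -/
theorem tend_SS (U : E →L[ℂ] E) (hU : ∀ v, ‖U v‖ = ‖v‖) (u : E) (hu : Cont U u) (θ : ℝ) :
    Tendsto (fun n : ℕ => ((n : ℂ))⁻¹ • SS U u n θ) atTop (𝓝 0) := by
  obtain ⟨V, hV⟩ : ∃ V : E →L[ℂ] E, V = ee (-θ) • U := ⟨_, rfl⟩
  have hVn : ∀ v, ‖V v‖ = ‖v‖ := by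
    intro v
    rw [hV, ContinuousLinearMap.smul_apply, norm_smul, norm_ee, one_mul, hU]
  have hV1 : ‖V‖ ≤ 1 := V.opNorm_le_bound zero_le_one (fun v => by rw [hVn, one_mul])
  have hpow : ∀ s : ℕ, V^[s] u = ee (-(s * θ)) • (U ^ s) u := by
    intro s
    induction s with
    | zero => simp [ee]
    | succ n ih =>
      rw [Function.iterate_succ_apply', ih, hV, ContinuousLinearMap.smul_apply, map_smul,
        smul_smul, ← ee_add, pow_succ', ContinuousLinearMap.mul_apply]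
      congr 2
      push_cast
      ring
  have h1 := ContinuousLinearMap.tendsto_birkhoffAverage_orthogonalProjection V hV1 u
  have h2 : (V.eqLocus (1 : E →L[ℂ] E)).orthogonalProjectionOnto u = 0 := by
    rw [Submodule.orthogonalProjectionOnto_eq_zero_iff, Submodule.mem_orthogonal]
    intro v hv
    apply hu θ v
    have h3 : V v = v := hv
    rw [hV, ContinuousLinearMap.smul_apply] at h3
    have h4 : ee θ * ee (-θ) = 1 := by
      rw [← ee_add, add_neg_cancel]
      simpa using ee_int 0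
    calc U v = (ee θ * ee (-θ)) • U v := by rw [h4, one_smul]
      _ = ee θ • v := by rw [mul_smul, h3]
  rw [h2] at h1
  have h3 : ∀ n : ℕ, birkhoffAverage ℂ V _root_.id n u = ((n : ℂ))⁻¹ • SS U u n θ := by
    intro n
    unfold birkhoffAverage birkhoffSum SS
    congr 1
    apply sum_congr rfl
    intro s _
    exact hpow s
  simpa [h3] using h1

/-- the mean ergodic theorem, uniformly over the frequencies (along the powers of 2) -/
theorem unif_SS (U : E →L[ℂ] E) (hU : ∀ v, ‖U v‖ = ‖v‖) (u : E) (hu : Cont U u) (ε : ℝ)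
    (hε : 0 < ε) : ∃ j₀ : ℕ, ∀ j, j₀ ≤ j → ∀ θ : ℝ, ‖SS U u (2 ^ j) θ‖ ≤ ε * 2 ^ j := by
  have hD : TendstoUniformlyOn (fun (j : ℕ) (θ : ℝ) => ‖SS U u (2 ^ j) θ‖ / (2 : ℝ) ^ j)
      (fun _ => (0 : ℝ)) atTop (Set.Icc (0 : ℝ) 1) := by
    apply Antitone.tendstoUniformlyOn_of_forall_tendsto isCompact_Icc
    · intro j
      exact ((cont_SS U u (2 ^ j)).norm.div_const _).continuousOn
    · intro θ _
      exact anti_SS U hU u θ
    · exact continuousOn_const
    · intro θ _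
      have h1 := (tend_SS U hU u hu θ).norm
      rw [norm_zero] at h1
      have h2 : Tendsto (fun j : ℕ => 2 ^ j) atTop atTop :=
        tendsto_pow_atTop_atTop_of_one_lt (by norm_num : (1 : ℕ) < 2)
      have h3 := h1.comp h2
      refine h3.congr (fun j => ?_)
      simp only [Function.comp_apply]
      rw [norm_smul, norm_inv]
      push_cast
      rw [norm_pow, Complex.norm_ofNat, div_eq_inv_mul]
  rw [Metric.tendstoUniformlyOn_iff] at hD
  obtain ⟨j₀, hj₀⟩ := eventually_atTop.1 (hD ε hε)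
  refine ⟨j₀, fun j hj θ => ?_⟩
  have h1 : SS U u (2 ^ j) θ = SS U u (2 ^ j) (Int.fract θ) := by
    conv_lhs => rw [← Int.fract_add_floor θ]
    exact per_SS U u (2 ^ j) (Int.fract θ) ⌊θ⌋
  have h2 := hj₀ j hj (Int.fract θ) ⟨Int.fract_nonneg θ, (Int.fract_lt_one θ).le⟩
  have h3 : (0 : ℝ) < 2 ^ j := by positivity
  have h4 : 0 ≤ ‖SS U u (2 ^ j) (Int.fract θ)‖ / (2 : ℝ) ^ j := by positivity
  rw [Real.dist_eq, zero_sub, abs_neg, abs_of_nonneg h4, div_lt_iff₀ h3] at h2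
  rw [h1]
  exact h2.le

end

end Pool.Agent.H81.WN
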