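import Pool.Agent.H81.WN.Cor

/-!
Continuous spectrum: the correlations along the multiples of the primes of an octave, and the mean
square of the correlations (white noise theorem, MP_c59857_nt).
-/

set_option autoImplicit false

open Finset

namespace Pool.Agent.H81.WN

open Pool.Agent.H6.N4D (ee norm_ee ee_add ee_int)
open Pool.Agent.H93.DE (oct)

section

variable {E : Type} [NormedAddCommGroup E] [InnerProductSpace ℂ E]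

/-- small weights -/
theorem wt_small [CompleteSpace E] (U : E →L[ℂ] E) (hU : ∀ v, ‖U v‖ = ‖v‖) (u : E)
    (hu : Cont U u) (δ : ℝ) (hδ : 0 < δ) :
    ∃ j₀ : ℕ, ∀ j, j₀ ≤ j → ∀ ξ : ℕ, wt U u (2 ^ j) ξ ≤ δ := by
  obtain ⟨j₀, h⟩ := unif_SS U hU u hu (Real.sqrt δ) (Real.sqrt_pos.2 hδ)
  refine ⟨j₀, fun j hj ξ => ?_⟩
  unfold wt
  have h2 : (0 : ℝ) < 2 ^ j := by positivity
  have h3 := h j hj ((ξ : ℝ) / ((2 ^ j : ℕ) : ℝ))
  have h4 : ‖SS U u (2 ^ j) ((ξ : ℝ) / ((2 ^ j : ℕ) : ℝ))‖ / ((2 ^ j : ℕ) : ℝ) ≤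
      Real.sqrt δ := by
    push_cast at h3 ⊢
    rw [div_le_iff₀ h2]
    exact h3
  calc (‖SS U u (2 ^ j) ((ξ : ℝ) / ((2 ^ j : ℕ) : ℝ))‖ / ((2 ^ j : ℕ) : ℝ)) ^ 2
      ≤ Real.sqrt δ ^ 2 := by
        apply pow_le_pow_left₀ (by positivity) h4
    _ = δ := Real.sq_sqrt hδ.le

/-- Bessel for the finite spectral measure -/
theorem WW_sq (U : E →L[ℂ] E) (u : E) (M : ℕ) (hM : 1 ≤ M) :
    ∑ a ∈ range M, ‖WW U u M a‖ ^ 2 = M * ∑ ξ ∈ range M, wt U u M ξ ^ 2 := by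
  have h1 : ∀ a ∈ range M, ((‖WW U u M a‖ ^ 2 : ℝ) : ℂ) = ∑ ξ ∈ range M, ∑ ζ ∈ range M,
      ((wt U u M ξ : ℂ) * (wt U u M ζ : ℂ)) * ee ((((ξ : ℤ) - ζ : ℤ) : ℝ) * a / M) := by
    intro a _
    have : ((‖WW U u M a‖ ^ 2 : ℝ) : ℂ) = WW U u M a * (starRingEnd ℂ) (WW U u M a) := by
      rw [Complex.mul_conj']
      push_cast
      rfl
    rw [this]
    unfold WW
    rw [map_sum, sum_mul_sum]
    apply sum_congr rfl
    intro ξ _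
    apply sum_congr rfl
    intro ζ _
    rw [map_mul, Pool.Agent.H6.GS2.conj_ee, Complex.conj_ofReal, mul_mul_mul_comm, ← ee_add]
    congr 2
    push_cast
    ring
  have h2 : ((∑ a ∈ range M, ‖WW U u M a‖ ^ 2 : ℝ) : ℂ) =
      ((M * ∑ ξ ∈ range M, wt U u M ξ ^ 2 : ℝ) : ℂ) := by
    rw [Complex.ofReal_sum, sum_congr rfl h1, sum_comm]
    have h3 : ∀ ξ ∈ range M, ∑ a ∈ range M, ∑ ζ ∈ range M,
        ((wt U u M ξ : ℂ) * (wt U u M ζ : ℂ)) * ee ((((ξ : ℤ) - ζ : ℤ) : ℝ) * a / M) =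
        M * (wt U u M ξ : ℂ) ^ 2 := by
      intro ξ hξ
      rw [sum_comm]
      have h4 : ∀ ζ ∈ range M, ∑ a ∈ range M, ((wt U u M ξ : ℂ) * (wt U u M ζ : ℂ)) *
          ee ((((ξ : ℤ) - ζ : ℤ) : ℝ) * a / M) =
          if ζ = ξ then M * (wt U u M ξ : ℂ) ^ 2 else 0 := by
        intro ζ hζ
        rw [← mul_sum]
        have b1 := mem_range.1 hξ
        have b2 := mem_range.1 hζ
        split_ifs with h5
        · rw [h5, orth_M M hM _ (Or.inl (by omega))]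
          ring
        · rw [Pool.Agent.H56.QP.orth M _ (by omega) (abs_lt.2 ⟨by omega, by omega⟩), mul_zero]
      rw [sum_congr rfl h4, sum_ite_eq' (range M) ξ, if_pos hξ]
    rw [sum_congr rfl h3, ← mul_sum]
    push_cast
    rfl
  exact_mod_cast h2

/-- (B2') the mean square of the correlations tends to zero -/
theorem meansq [CompleteSpace E] (U : E →L[ℂ] E) (hU : ∀ v, ‖U v‖ = ‖v‖) (u : E)
    (hu : Cont U u) (ε : ℝ) (hε : 0 < ε) : ∃ j₀ : ℕ, ∀ j, j₀ ≤ j →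
    ∑ a ∈ range (2 ^ j), ‖(inner ℂ u ((U ^ a) u) : ℂ)‖ ^ 2 ≤ ε * 2 ^ j := by
  obtain ⟨N, hN⟩ : ∃ N : ℝ, N = ‖u‖ ^ 2 := ⟨_, rfl⟩
  have hN0 : 0 ≤ N := by rw [hN]; positivity
  -- `B` with `8 N ^ 2 / 4 ^ B ≤ ε / 2`
  obtain ⟨B, hB⟩ : ∃ B : ℕ, 16 * N ^ 2 / ε ≤ (4 : ℝ) ^ B := by
    obtain ⟨B, hB⟩ := pow_unbounded_of_one_lt (16 * N ^ 2 / ε) (by norm_num : (1 : ℝ) < 4)
    exact ⟨B, hB.le⟩
  obtain ⟨δ, hδ⟩ : ∃ δ : ℝ, δ = ε / (4 * 2 ^ B * (N + 1)) := ⟨_, rfl⟩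
  have hδ0 : 0 < δ := by rw [hδ]; positivity
  obtain ⟨j₀, hj₀⟩ := wt_small U hU u hu δ hδ0
  refine ⟨j₀, fun j hj => ?_⟩
  obtain ⟨M, hM⟩ : ∃ M : ℕ, M = 2 ^ (j + B) := ⟨_, rfl⟩
  have hM1 : 1 ≤ M := by rw [hM]; exact Nat.one_le_two_pow
  have hMr : (M : ℝ) = 2 ^ j * 2 ^ B := by rw [hM]; push_cast; rw [pow_add]
  have hle : 2 ^ j ≤ M := by
    rw [hM]
    exact Nat.pow_le_pow_right (by norm_num) (Nat.le_add_right _ _)
  have hj2 : (0 : ℝ) < 2 ^ j := by positivity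
  have hB2 : (0 : ℝ) < 2 ^ B := by positivity
  have hM0 : (0 : ℝ) < M := by rw [hMr]; positivity
  have hw : ∀ ξ : ℕ, wt U u M ξ ≤ δ := by
    intro ξ
    rw [hM]
    exact hj₀ (j + B) (le_trans hj (Nat.le_add_right _ _)) ξ
  -- the sum of the squares of the weights
  have h1 : ∑ ξ ∈ range M, wt U u M ξ ^ 2 ≤ δ * N := by
    rw [hN, ← wt_sum U hU u M hM1, mul_sum]
    apply sum_le_sum
    intro ξ _
    rw [sq]
    exact mul_le_mul_of_nonneg_right (hw ξ) (wt_nonneg U u M ξ)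
  have h2 : ∑ a ∈ range (2 ^ j), ‖WW U u M a‖ ^ 2 ≤ M * (δ * N) := by
    calc ∑ a ∈ range (2 ^ j), ‖WW U u M a‖ ^ 2 ≤ ∑ a ∈ range M, ‖WW U u M a‖ ^ 2 := by
          apply sum_le_sum_of_subset_of_nonneg
          · exact range_subset_range.2 hle
          · intro a _ _
            positivity
      _ = M * ∑ ξ ∈ range M, wt U u M ξ ^ 2 := WW_sq U u M hM1
      _ ≤ M * (δ * N) := mul_le_mul_of_nonneg_left h1 hM0.le
  have h3 : ∀ a ∈ range (2 ^ j), ‖(inner ℂ u ((U ^ a) u) : ℂ)‖ ^ 2 ≤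
      2 * ‖WW U u M a‖ ^ 2 + 2 * (2 * N / 2 ^ B) ^ 2 := by
    intro a ha
    have ha' := mem_range.1 ha
    have b1 := WW_near U hU u M a hM1 (by omega)
    have b2 : 2 * (a : ℝ) * ‖u‖ ^ 2 / M ≤ 2 * N / 2 ^ B := by
      rw [← hN, div_le_div_iff₀ hM0 hB2, hMr]
      have b3 : (a : ℝ) ≤ 2 ^ j := by exact_mod_cast ha'.le
      calc 2 * (a : ℝ) * N * 2 ^ B ≤ 2 * 2 ^ j * N * 2 ^ B := by gcongr
        _ = 2 * N * (2 ^ j * 2 ^ B) := by ring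
    have b4 : ‖(inner ℂ u ((U ^ a) u) : ℂ)‖ ≤ ‖WW U u M a‖ + 2 * N / 2 ^ B := by
      have b5 := norm_sub_norm_le (inner ℂ u ((U ^ a) u) : ℂ) (WW U u M a)
      rw [norm_sub_rev] at b5
      linarith
    calc ‖(inner ℂ u ((U ^ a) u) : ℂ)‖ ^ 2 ≤ (‖WW U u M a‖ + 2 * N / 2 ^ B) ^ 2 :=
          pow_le_pow_left₀ (norm_nonneg _) b4 2
      _ ≤ 2 * ‖WW U u M a‖ ^ 2 + 2 * (2 * N / 2 ^ B) ^ 2 := by
        have := sq_nonneg (‖WW U u M a‖ - 2 * N / 2 ^ B)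
        linarith [sq_nonneg (‖WW U u M a‖ - 2 * N / 2 ^ B),
          add_sq (‖WW U u M a‖) (2 * N / 2 ^ B), sub_sq (‖WW U u M a‖) (2 * N / 2 ^ B)]
  refine (sum_le_sum h3).trans ?_
  rw [sum_add_distrib, ← mul_sum, sum_const, card_range, nsmul_eq_mul]
  push_cast
  have h4 : 2 * ((M : ℝ) * (δ * N)) ≤ ε / 2 * 2 ^ j := by
    rw [hMr, hδ]
    have : 2 * (2 ^ j * 2 ^ B * (ε / (4 * 2 ^ B * (N + 1)) * N)) =
        ε / 2 * 2 ^ j * (N / (N + 1)) := by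
      field_simp
      ring
    rw [this]
    have h5 : N / (N + 1) ≤ 1 := by
      rw [div_le_one (by positivity)]
      linarith
    calc ε / 2 * 2 ^ j * (N / (N + 1)) ≤ ε / 2 * 2 ^ j * 1 := by gcongr
      _ = ε / 2 * 2 ^ j := mul_one _
  have h5 : (2 : ℝ) ^ j * (2 * (2 * N / 2 ^ B) ^ 2) ≤ ε / 2 * 2 ^ j := by
    rw [mul_comm]
    apply mul_le_mul_of_nonneg_right _ hj2.le
    have h6 : 2 * (2 * N / 2 ^ B) ^ 2 = 8 * N ^ 2 / 4 ^ B := by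
      rw [div_pow, mul_pow, ← pow_mul, mul_comm B 2, pow_mul]
      norm_num
      ring
    rw [h6, div_le_iff₀ (by positivity)]
    rw [div_le_iff₀ hε] at hB
    linarith
  linarith [mul_le_mul_of_nonneg_left h2 (by norm_num : (0 : ℝ) ≤ 2)]

end

end Pool.Agent.H81.WN
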