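import Pool.Agent.H81.WN.Oct

/-!
Continuous spectrum: the correlations along the multiples of the primes of an octave tend to zero
in the mean (white noise theorem, MP_c59857_nt).
-/

set_option autoImplicit false

open Finset

namespace Pool.Agent.H81.WN

open Pool.Agent.H6.N4D (ee norm_ee ee_add ee_int)
open Pool.Agent.H93.DE (oct)
open Pool.Agent.H56.QP (PC fewC)

/-- the prime sum is at most the number of the primes -/
theorem norm_PC_le (S : Finset ℕ) (e : ℕ → ℂ) (he : ∀ q, ‖e q‖ ≤ 1) (h M ξ : ℕ) :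
    ‖PC S e h M ξ‖ ≤ S.card := by
  unfold PC
  refine (norm_sum_le _ _).trans ?_
  calc ∑ q ∈ S, ‖e q * ee ((((q : ℤ) * h : ℤ) : ℝ) * ξ / M)‖ ≤ ∑ _q ∈ S, (1 : ℝ) := by
        apply sum_le_sum
        intro q _
        rw [norm_mul, norm_ee, mul_one]
        exact he q
    _ = S.card := by rw [sum_const, nsmul_eq_mul, mul_one]

/-- weights with small maximum, against the prime sum -/
theorem split_PC (w : ℕ → ℝ) (P : ℕ → ℝ) (M : ℕ) (σ δ s N K : ℝ) (hσ : 0 < σ) (hs : 0 ≤ s)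
    (hw0 : ∀ ξ, 0 ≤ w ξ) (hw : ∀ ξ, w ξ ≤ δ) (hN : ∑ ξ ∈ range M, w ξ ≤ N)
    (hP0 : ∀ ξ, 0 ≤ P ξ) (hP : ∀ ξ, P ξ ≤ s)
    (hK : (((range M).filter (fun ξ => σ ^ 2 * s ^ 2 ≤ P ξ ^ 2)).card : ℝ) ≤ K) :
    ∑ ξ ∈ range M, w ξ * P ξ ≤ (K * δ + σ * N) * s := by
  have h0 : ∀ ξ ∈ range M, w ξ * P ξ ≤
      (if σ ^ 2 * s ^ 2 ≤ P ξ ^ 2 then δ * s else 0) + w ξ * (σ * s) := by
    intro ξ _
    split_ifs with h
    · have b1 : w ξ * P ξ ≤ δ * s := mul_le_mul (hw ξ) (hP ξ) (hP0 ξ) ((hw0 ξ).trans (hw ξ))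
      have b2 : 0 ≤ w ξ * (σ * s) := mul_nonneg (hw0 ξ) (mul_nonneg hσ.le hs)
      linarith
    · push Not at h
      rw [zero_add]
      apply mul_le_mul_of_nonneg_left _ (hw0 ξ)
      rw [← mul_pow] at h
      exact (lt_of_pow_lt_pow_left₀ 2 (mul_nonneg hσ.le hs) h).le
  refine (sum_le_sum h0).trans ?_
  rw [sum_add_distrib, ← sum_filter, sum_const, nsmul_eq_mul, ← sum_mul]
  have hδ : 0 ≤ δ := (hw0 0).trans (hw 0)
  have b1 := mul_le_mul_of_nonneg_right hK (mul_nonneg hδ hs)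
  have b2 := mul_le_mul_of_nonneg_right hN (mul_nonneg hσ.le hs)
  calc _ ≤ K * (δ * s) + N * (σ * s) := add_le_add b1 b2
    _ = (K * δ + σ * N) * s := by ring

section

variable {E : Type} [NormedAddCommGroup E] [InnerProductSpace ℂ E]

/-- duality: the absolute values of the finite spectral measure at `q k` -/
theorem WW_dual (U : E →L[ℂ] E) (u : E) (M k : ℕ) (S : Finset ℕ) :
    ∃ e : ℕ → ℂ, (∀ q, ‖e q‖ ≤ 1) ∧
    ∑ q ∈ S, ‖WW U u M (q * k)‖ ≤ ∑ ξ ∈ range M, wt U u M ξ * ‖PC S e k M ξ‖ := by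
  refine ⟨fun q => (‖WW U u M (q * k)‖ : ℂ)⁻¹ * (starRingEnd ℂ) (WW U u M (q * k)),
    fun q => ?_, ?_⟩
  · simp only
    rw [norm_mul, norm_inv, Complex.norm_real, Real.norm_eq_abs, abs_norm, RCLike.norm_conj]
    exact inv_mul_le_one
  · obtain ⟨e, he⟩ : ∃ e : ℕ → ℂ,
        e = fun q => (‖WW U u M (q * k)‖ : ℂ)⁻¹ * (starRingEnd ℂ) (WW U u M (q * k)) := ⟨_, rfl⟩
    rw [← he]
    have h1 : ∀ q, (‖WW U u M (q * k)‖ : ℂ) = e q * WW U u M (q * k) := by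
      intro q
      rw [he]
      simp only
      rw [mul_assoc, Complex.conj_mul', sq]
      by_cases h : (‖WW U u M (q * k)‖ : ℂ) = 0
      · rw [h]; simp
      · field_simp
    have h2 : ((∑ q ∈ S, ‖WW U u M (q * k)‖ : ℝ) : ℂ) =
        ∑ ξ ∈ range M, (wt U u M ξ : ℂ) * PC S e k M ξ := by
      rw [Complex.ofReal_sum, sum_congr rfl (fun q _ => h1 q)]
      unfold WW PC
      simp only [mul_sum]
      rw [sum_comm]
      apply sum_congr rfl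
      intro ξ _
      apply sum_congr rfl
      intro q _
      rw [show (((q * k : ℕ) : ℝ)) = ((((q : ℤ) * k : ℤ) : ℝ)) by push_cast; rfl]
      ring
    have h3 : ‖((∑ q ∈ S, ‖WW U u M (q * k)‖ : ℝ) : ℂ)‖ = ∑ q ∈ S, ‖WW U u M (q * k)‖ := by
      rw [Complex.norm_real, Real.norm_eq_abs, abs_of_nonneg]
      exact sum_nonneg (fun q _ => norm_nonneg _)
    rw [← h3, h2]
    refine (norm_sum_le _ _).trans (le_of_eq ?_)
    apply sum_congr rfl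
    intro ξ _
    rw [norm_mul, Complex.norm_real, Real.norm_eq_abs, abs_of_nonneg (wt_nonneg U u M ξ)]

/-- (B2) the correlations along `q k`, `q` a prime of the octave -/
theorem primes [CompleteSpace E] (U : E →L[ℂ] E) (hU : ∀ v, ‖U v‖ = ‖v‖) (u : E)
    (hu : Cont U u) (k : ℕ) (hk : 1 ≤ k) (ε : ℝ) (hε : 0 < ε) : ∃ m₀ : ℕ, ∀ m, m₀ ≤ m →
    ∑ q ∈ oct m, ‖(inner ℂ u ((U ^ (q * k)) u) : ℂ)‖ ≤ ε * (oct m).card := by
  obtain ⟨N, hN⟩ : ∃ N : ℝ, N = ‖u‖ ^ 2 := ⟨_, rfl⟩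
  have hN0 : 0 ≤ N := by rw [hN]; positivity
  obtain ⟨C, hC, hfew⟩ := fewC
  obtain ⟨c, m₁, hc, hpil⟩ := Pool.Agent.H93.DE.pf_PIL
  have hkr : (1 : ℝ) ≤ k := by exact_mod_cast hk
  obtain ⟨B, hB⟩ : ∃ B : ℕ, 2 * k + 1 + 16 * k * N / ε ≤ (2 : ℝ) ^ B := by
    obtain ⟨B, hB⟩ := pow_unbounded_of_one_lt (2 * (k : ℝ) + 1 + 16 * k * N / ε)
      (by norm_num : (1 : ℝ) < 2)
    exact ⟨B, hB.le⟩
  have hB0 : 0 ≤ 16 * k * N / ε := by positivity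
  have hBk : 2 * k < 2 ^ B := by
    have : 2 * (k : ℝ) < 2 ^ B := by linarith
    exact_mod_cast this
  have hBε : 4 * k * N / 2 ^ B ≤ ε / 4 := by
    have b1 : 16 * k * N / ε ≤ 2 ^ B := by linarith
    rw [div_le_iff₀ hε] at b1
    rw [div_le_iff₀ (by positivity)]
    linarith
  obtain ⟨σ, hσ⟩ : ∃ σ : ℝ, σ = ε / (4 * (N + 1)) := ⟨_, rfl⟩
  have hσ0 : 0 < σ := by rw [hσ]; positivity
  have hσN : σ * N ≤ ε / 4 := by
    rw [hσ]
    have : ε / (4 * (N + 1)) * N = ε / 4 * (N / (N + 1)) := by field_simp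
    rw [this]
    have h5 : N / (N + 1) ≤ 1 := by
      rw [div_le_one (by positivity)]
      linarith
    calc ε / 4 * (N / (N + 1)) ≤ ε / 4 * 1 := by gcongr
      _ = ε / 4 := mul_one _
  obtain ⟨K, hK⟩ : ∃ K : ℝ, K = C * 2 ^ B / ((σ ^ 2) ^ 2 * c ^ 4) := ⟨_, rfl⟩
  have hK0 : 0 < K := by rw [hK]; positivity
  obtain ⟨δ, hδ⟩ : ∃ δ : ℝ, δ = ε / (4 * K) := ⟨_, rfl⟩
  have hδ0 : 0 < δ := by rw [hδ]; positivity
  have hKδ : K * δ = ε / 4 := by rw [hδ]; field_simp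
  obtain ⟨j₀, hj₀⟩ := wt_small U hU u hu δ hδ0
  refine ⟨max (max 1 m₁) j₀, fun m hm => ?_⟩
  have hm1 : 1 ≤ m := le_trans (le_trans (le_max_left _ _) (le_max_left _ _)) hm
  have hmm : m₁ ≤ m := le_trans (le_trans (le_max_right _ _) (le_max_left _ _)) hm
  have hmj : j₀ ≤ m := le_trans (le_max_right _ _) hm
  obtain ⟨M, hM⟩ : ∃ M : ℕ, M = 2 ^ (m + B) := ⟨_, rfl⟩
  have hM1 : 1 ≤ M := by rw [hM]; exact Nat.one_le_two_pow
  have hMn : M = 2 ^ m * 2 ^ B := by rw [hM, pow_add]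
  have hMr : (M : ℝ) = 2 ^ m * 2 ^ B := by rw [hM]; push_cast; rw [pow_add]
  have hm2 : (0 : ℝ) < 2 ^ m := by positivity
  have hM0 : (0 : ℝ) < M := by rw [hMr]; positivity
  have hw : ∀ ξ : ℕ, wt U u M ξ ≤ δ := by
    intro ξ
    rw [hM]
    exact hj₀ (m + B) (le_trans hmj (Nat.le_add_right _ _)) ξ
  have hbig : 2 * 2 ^ m * k < M := by
    rw [hMn]
    calc 2 * 2 ^ m * k = 2 ^ m * (2 * k) := by ring
      _ < 2 ^ m * 2 ^ B := Nat.mul_lt_mul_of_pos_left hBk (by positivity)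
  have hoct : ∀ q ∈ oct m, q.Prime ∧ 2 ^ m ≤ q ∧ q ≤ 2 ^ (m + 1) := by
    intro q hq
    unfold oct at hq
    rw [mem_filter, mem_Ioc] at hq
    exact ⟨hq.2, hq.1.1.le, hq.1.2⟩
  obtain ⟨e, he, hdual⟩ := WW_dual U u M k (oct m)
  have hf := hfew m k M (oct m) e (σ ^ 2) hm1 hk hbig (by positivity) hoct he
  have hmr : (0 : ℝ) < m := by exact_mod_cast hm1
  have hS : c * 2 ^ m / m ≤ ((oct m).card : ℝ) := hpil m hmm
  have hcs : 0 < c * 2 ^ m / m := by positivity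
  have hS0 : (0 : ℝ) < (oct m).card := hcs.trans_le hS
  -- the number of the large frequencies
  have hcard : (((range M).filter (fun ξ => σ ^ 2 * ((oct m).card : ℝ) ^ 2 ≤
      ‖PC (oct m) e k M ξ‖ ^ 2)).card : ℝ) ≤ K := by
    obtain ⟨Z, hZ⟩ : ∃ Z : ℝ, Z = (((range M).filter (fun ξ => σ ^ 2 *
      ((oct m).card : ℝ) ^ 2 ≤ ‖PC (oct m) e k M ξ‖ ^ 2)).card : ℝ) := ⟨_, rfl⟩
    rw [← hZ] at hf ⊢
    have hZ0 : 0 ≤ Z := by rw [hZ]; positivity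
    have b1 : (c * 2 ^ m / m) ^ 4 ≤ ((oct m).card : ℝ) ^ 4 :=
      pow_le_pow_left₀ hcs.le hS 4
    have b2 : Z * ((σ ^ 2) ^ 2 * (c * 2 ^ m / m) ^ 4) ≤
        C * M * ((2 : ℝ) ^ m) ^ 3 / (m : ℝ) ^ 4 := by
      refine le_trans ?_ hf
      apply mul_le_mul_of_nonneg_left _ hZ0
      exact mul_le_mul_of_nonneg_left b1 (by positivity)
    rw [hMr] at b2
    have b3 : Z * ((σ ^ 2) ^ 2 * (c * 2 ^ m / m) ^ 4) =
        (Z * ((σ ^ 2) ^ 2 * c ^ 4)) * (((2 : ℝ) ^ m) ^ 4 / (m : ℝ) ^ 4) := by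
      field_simp
    have b4 : C * (2 ^ m * 2 ^ B) * ((2 : ℝ) ^ m) ^ 3 / (m : ℝ) ^ 4 =
        (C * 2 ^ B) * (((2 : ℝ) ^ m) ^ 4 / (m : ℝ) ^ 4) := by
      field_simp
    rw [b3, b4] at b2
    have b5 := le_of_mul_le_mul_right b2 (by positivity)
    rw [hK, le_div_iff₀ (by positivity)]
    exact b5
  have hsplit := split_PC (wt U u M) (fun ξ => ‖PC (oct m) e k M ξ‖) M σ δ (oct m).card N K
    hσ0 hS0.le (wt_nonneg U u M) hw (by rw [hN]; exact (wt_sum U hU u M hM1).le)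
    (fun _ => norm_nonneg _) (fun ξ => norm_PC_le (oct m) e he k M ξ) hcard
  have hq : ∀ q ∈ oct m, ‖(inner ℂ u ((U ^ (q * k)) u) : ℂ)‖ ≤
      ‖WW U u M (q * k)‖ + ε / 4 := by
    intro q hq
    have hq2 := (hoct q hq).2.2
    have b0 : q * k ≤ 2 * 2 ^ m * k := by
      apply Nat.mul_le_mul_right
      rw [pow_succ] at hq2
      linarith
    have b1 := WW_near U hU u M (q * k) hM1 (by omega)
    have b2 : 2 * ((q * k : ℕ) : ℝ) * ‖u‖ ^ 2 / M ≤ ε / 4 := by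
      refine le_trans ?_ hBε
      rw [← hN, hMr, div_le_div_iff₀ (by positivity) (by positivity)]
      have b3 : ((q * k : ℕ) : ℝ) ≤ 2 * 2 ^ m * k := by exact_mod_cast b0
      calc 2 * ((q * k : ℕ) : ℝ) * N * 2 ^ B ≤ 2 * (2 * 2 ^ m * k) * N * 2 ^ B := by gcongr
        _ = 4 * k * N * (2 ^ m * 2 ^ B) := by ring
    have b5 := norm_sub_norm_le (inner ℂ u ((U ^ (q * k)) u) : ℂ) (WW U u M (q * k))
    rw [norm_sub_rev] at b5
    linarith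
  refine (sum_le_sum hq).trans ?_
  rw [sum_add_distrib, sum_const, nsmul_eq_mul]
  have hfin : (K * δ + σ * N) * ((oct m).card : ℝ) ≤ (ε / 4 + ε / 4) * (oct m).card := by
    apply mul_le_mul_of_nonneg_right _ hS0.le
    rw [hKδ]
    linarith
  have hlast : ∑ q ∈ oct m, ‖WW U u M (q * k)‖ ≤ (ε / 4 + ε / 4) * (oct m).card :=
    hdual.trans (hsplit.trans hfin)
  have : 0 ≤ ε * ((oct m).card : ℝ) := by positivity
  linarith

end

end Pool.Agent.H81.WN
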